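import Mathlib
import Pool.Agent.W369.GM.Defs
import Pool.Agent.W369.GM.Basic
import Pool.Agent.W369.GM.STC
import Pool.Agent.W369.GM.STD
import Pool.Agent.W369.GM.SPREAD
import Pool.Agent.W369.GM.EXT
import Pool.Agent.W369.GM.LOC
import Pool.Agent.W369.GM.INER
import Pool.Agent.W345.GM2.STV
import Pool.Agent.W345.GM2.STR
import Pool.Agent.W345.GM2.MIN
import Pool.Agent.W345.GM2.DENSE
import Pool.Agent.W345.GM2.ELL
import Pool.Agent.W366.GM.Hom
import Pool.Agent.W366.GM.Ref
import Pool.Agent.W368.GM.Cross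

set_option autoImplicit false

/-!
# The largest Gromov mass of the unit ball of a normed space

For every dimension `d ≥ 1` the largest value of Gromov's mass of an origin-symmetric convex body
is the volume of the Euclidean unit ball, and it is attained exactly by the ellipsoids.
-/

namespace Pool.Agent.Results.MP_77d991_gt.LargestMass

open MeasureTheory Set Metric Module
open Pool.Agent.W369.GM

/-- an `o`-symmetric convex body: compact, convex, with nonempty interior and `M = -M` -/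
def IsSymmetricBody {d : ℕ} (M : Set (EuclideanSpace ℝ (Fin d))) : Prop :=
  IsCompact M ∧ Convex ℝ M ∧ (interior M).Nonempty ∧ ∀ x ∈ M, -x ∈ M

/-- the cross-polytope `conv {±v₁, …, ±v_d}` -/
def crossPolytope {d : ℕ} (v : Fin d → EuclideanSpace ℝ (Fin d)) :
    Set (EuclideanSpace ℝ (Fin d)) :=
  convexHull ℝ (Set.range v ∪ Set.range (fun i => -v i))

/-- Gromov's mass of the body `M`, measured in the norm with unit ball `M`: the volume of `M`
divided by the largest volume of a cross-polytope inscribed in `M`, times `2 ^ d / d!` -/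
noncomputable def gromovMass {d : ℕ} (M : Set (EuclideanSpace ℝ (Fin d))) : ℝ :=
  2 ^ d / (d.factorial : ℝ) * (volume.real M /
    sSup {V : ℝ | ∃ v : Fin d → EuclideanSpace ℝ (Fin d), (∀ i, v i ∈ M) ∧
      LinearIndependent ℝ v ∧ V = volume.real (crossPolytope v)})

/-- the full inequality, unconditionally -/
theorem t_ineq : S_INEQ :=
  ineq Pool.Agent.W345.GM2.min (spread stc Pool.Agent.W345.GM2.stv std Pool.Agent.W345.GM2.str)

theorem t_eq : S_EQ := by
  intro d M D hd hM hE
  have hloc : S_LOC := loc stc Pool.Agent.W345.GM2.stv std (ext t_ineq)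
  have href : S_REF := Pool.Agent.W366.GM.ref (Pool.Agent.W366.GM.hom hloc)
  apply Pool.Agent.W345.GM2.ell iner d M hd hM
  refine (Pool.Agent.W345.GM2.dense d M hd hM).mono ?_
  rintro u ⟨hu, hdiff⟩
  exact href d M D u hM hE hu hdiff

lemma cross_real {d : ℕ} (hd : 0 < d) (v : Fin d → EuclideanSpace ℝ (Fin d)) :
    volume.real (crossPolytope v) = 2 ^ d / (d.factorial : ℝ) * dt v := by
  have h := Pool.Agent.W368.GM.t_CROSS d v hd
  unfold Measure.real crossPolytope
  rw [h, ENNReal.toReal_ofReal]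
  have : 0 ≤ dt v := abs_nonneg _
  positivity

lemma dt_pos_iff {d : ℕ} (v : Fin d → EuclideanSpace ℝ (Fin d)) :
    0 < dt v ↔ LinearIndependent ℝ v := by
  unfold dt
  rw [abs_pos]
  have h1 : LinearIndependent ℝ v ↔ LinearIndependent ℝ (Matrix.of fun i j => v i j).row := by
    have h2 := LinearMap.linearIndependent_iff
      ((WithLp.linearEquiv 2 ℝ (Fin d → ℝ)) : EuclideanSpace ℝ (Fin d) →ₗ[ℝ] (Fin d → ℝ)) (v := v)
      (LinearEquiv.ker _)
    exact h2.symm
  rw [h1, Matrix.linearIndependent_rows_iff_isUnit, Matrix.isUnit_iff_isUnit_det, isUnit_iff_ne_zero]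

/-- the maximal determinant -/
lemma exists_max {d : ℕ} (M : Set (EuclideanSpace ℝ (Fin d)))
    (hM : Body M) : ∃ v₀ : Fin d → EuclideanSpace ℝ (Fin d), (∀ i, v₀ i ∈ M) ∧
      0 < dt v₀ ∧ DB M (dt v₀) := by
  have hc : IsCompact (Set.pi univ (fun _ : Fin d => M)) := isCompact_univ_pi fun _ => hM.compact
  have h0 := zero_mem_interior M hM
  have hne : (Set.pi univ (fun _ : Fin d => M)).Nonempty :=
    ⟨fun _ => 0, fun _ _ => interior_subset h0⟩
  obtain ⟨v₀, hv₀, hmax⟩ := hc.exists_isMaxOn hne continuous_dt.continuousOn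
  have hDB : DB M (dt v₀) := fun v hv => hmax (fun i _ => hv i)
  refine ⟨v₀, fun i => hv₀ i (mem_univ i), ?_, hDB⟩
  obtain ⟨ε, hε, hball⟩ := Metric.isOpen_iff.mp isOpen_interior 0 h0
  have h1 := hDB (fun i => (ε / 2) • EuclideanSpace.single i (1 : ℝ)) (by
    intro i
    apply interior_subset
    apply hball
    rw [mem_ball_zero_iff, norm_smul, PiLp.norm_single, norm_one, mul_one, Real.norm_eq_abs,
      abs_of_pos (by positivity)]
    linarith)
  refine lt_of_lt_of_le ?_ h1
  rw [dt_pos_iff]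
  have h2 : LinearIndependent ℝ (fun i : Fin d => (EuclideanSpace.basisFun (Fin d) ℝ) i) :=
    (EuclideanSpace.basisFun (Fin d) ℝ).orthonormal.linearIndependent
  have hu : (ε / 2 : ℝ) ≠ 0 := by positivity
  have h3 := h2.units_smul (fun _ : Fin d => Units.mk0 (ε / 2 : ℝ) hu)
  have e : (fun i : Fin d => (ε / 2) • EuclideanSpace.single i (1 : ℝ)) =
      (fun _ : Fin d => Units.mk0 (ε / 2 : ℝ) hu) •
        (fun i : Fin d => (EuclideanSpace.basisFun (Fin d) ℝ) i) := by
    funext i
    rw [Pi.smul_apply', EuclideanSpace.basisFun_apply]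
    rfl
  rw [e]
  exact h3

lemma mass_eq {d : ℕ} (hd : 0 < d) (M : Set (EuclideanSpace ℝ (Fin d)))
    (v₀ : Fin d → EuclideanSpace ℝ (Fin d)) (h1 : ∀ i, v₀ i ∈ M) (h2 : 0 < dt v₀)
    (h3 : DB M (dt v₀)) : gromovMass M = volume.real M / dt v₀ := by
  have hc : (0 : ℝ) < 2 ^ d / (d.factorial : ℝ) := by positivity
  have hg : IsGreatest {V : ℝ | ∃ v : Fin d → EuclideanSpace ℝ (Fin d), (∀ i, v i ∈ M) ∧
      LinearIndependent ℝ v ∧ V = volume.real (crossPolytope v)}
      (2 ^ d / (d.factorial : ℝ) * dt v₀) := by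
    constructor
    · exact ⟨v₀, h1, (dt_pos_iff v₀).mp h2, (cross_real hd v₀).symm⟩
    · rintro _ ⟨v, hv, -, rfl⟩
      rw [cross_real hd]
      exact mul_le_mul_of_nonneg_left (h3 v hv) hc.le
  unfold gromovMass
  rw [hg.csSup_eq]
  field_simp

/-- Hadamard's inequality for vectors of the unit ball -/
lemma db_ball (d : ℕ) : DB (closedBall (0 : EuclideanSpace ℝ (Fin d)) 1) 1 := by
  intro v hv
  have hfact : Fact (finrank ℝ (EuclideanSpace ℝ (Fin d)) = d) :=
    ⟨by rw [finrank_euclideanSpace, Fintype.card_fin]⟩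
  set b := EuclideanSpace.basisFun (Fin d) ℝ with hb
  set o := b.toBasis.orientation with ho
  have h1 := o.abs_volumeForm_apply_le v
  have h2 : o.volumeForm v = (Matrix.of fun i j => v i j).det := by
    rw [o.volumeForm_robust b rfl, Basis.det_apply]
    rw [← Matrix.det_transpose]
    rfl
  rw [h2] at h1
  refine h1.trans ?_
  apply Finset.prod_le_one
  · intro i _
    exact norm_nonneg _
  · intro i _
    have := hv i
    rwa [mem_closedBall_zero_iff] at this

lemma body_of {d : ℕ} (M : Set (EuclideanSpace ℝ (Fin d))) (hM : IsSymmetricBody M) : Body M :=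
  { compact := hM.1
    convex := hM.2.1
    symm := hM.2.2.2
    inter := hM.2.2.1 }

lemma dt_image {d : ℕ} (hd : 0 < d) (A : EuclideanSpace ℝ (Fin d) ≃ₗ[ℝ] EuclideanSpace ℝ (Fin d))
    (w : Fin d → EuclideanSpace ℝ (Fin d)) :
    dt (fun i => A (w i)) =
      |LinearMap.det (A : EuclideanSpace ℝ (Fin d) →ₗ[ℝ] EuclideanSpace ℝ (Fin d))| * dt w := by
  have h1 := cross_real hd (fun i => A (w i))
  have h2 := cross_real hd w
  have h3 : crossPolytope (fun i => A (w i)) =
      (A : EuclideanSpace ℝ (Fin d) →ₗ[ℝ] EuclideanSpace ℝ (Fin d)) '' crossPolytope w := by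
    unfold crossPolytope
    rw [LinearMap.image_convexHull, Set.image_union, ← Set.range_comp, ← Set.range_comp]
    congr 3
    funext i
    show -A (w i) = A (-w i)
    rw [map_neg]
  have h4 : volume.real (crossPolytope (fun i => A (w i))) =
      |LinearMap.det (A : EuclideanSpace ℝ (Fin d) →ₗ[ℝ] EuclideanSpace ℝ (Fin d))| *
        volume.real (crossPolytope w) := by
    rw [h3]
    unfold Measure.real
    rw [Measure.addHaar_image_linearMap, ENNReal.toReal_mul, ENNReal.toReal_ofReal (abs_nonneg _)]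
  have hc : (0 : ℝ) < 2 ^ d / (d.factorial : ℝ) := by positivity
  rw [h1, h2] at h4
  have h5 : 2 ^ d / (d.factorial : ℝ) * dt (fun i => A (w i)) = 2 ^ d / (d.factorial : ℝ) *
      (|LinearMap.det (A : EuclideanSpace ℝ (Fin d) →ₗ[ℝ] EuclideanSpace ℝ (Fin d))| * dt w) := by
    rw [h4]
    ring
  exact mul_left_cancel₀ hc.ne' h5

/-- the mass of an ellipsoid -/
lemma mass_ellipsoid {d : ℕ} (hd : 0 < d)
    (A : EuclideanSpace ℝ (Fin d) ≃ₗ[ℝ] EuclideanSpace ℝ (Fin d)) :
    gromovMass (A '' closedBall (0 : EuclideanSpace ℝ (Fin d)) 1) =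
      volume.real (closedBall (0 : EuclideanSpace ℝ (Fin d)) 1) := by
  set δ := |LinearMap.det (A : EuclideanSpace ℝ (Fin d) →ₗ[ℝ] EuclideanSpace ℝ (Fin d))| with hδ
  have hδpos : 0 < δ := abs_pos.mpr (LinearEquiv.isUnit_det' A).ne_zero
  set b := EuclideanSpace.basisFun (Fin d) ℝ with hb
  have hdtb : dt (fun i => b i) = 1 := by
    unfold dt
    have e : (Matrix.of fun i j : Fin d => (b i : EuclideanSpace ℝ (Fin d)) j) = 1 := by
      ext i j
      rw [Matrix.of_apply, Matrix.one_apply, hb, EuclideanSpace.basisFun_apply]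
      by_cases hij : i = j
      · subst hij
        simp
      · simp [hij, Ne.symm hij]
    rw [e, Matrix.det_one, abs_one]
  have hdt0 : dt (fun i => A (b i)) = δ := by
    rw [dt_image hd A (fun i => b i), hdtb, mul_one]
  rw [mass_eq hd _ (fun i => A (b i)) ?_ ?_ ?_, hdt0]
  · have h3 : volume.real (A '' closedBall (0 : EuclideanSpace ℝ (Fin d)) 1) =
        δ * volume.real (closedBall (0 : EuclideanSpace ℝ (Fin d)) 1) := by
      have h4 := Measure.addHaar_image_linearMap (volume : Measure (EuclideanSpace ℝ (Fin d)))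
        (A : EuclideanSpace ℝ (Fin d) →ₗ[ℝ] EuclideanSpace ℝ (Fin d)) (closedBall 0 1)
      unfold Measure.real
      have h5 : volume (A '' closedBall (0 : EuclideanSpace ℝ (Fin d)) 1) = ENNReal.ofReal
          |LinearMap.det (A : EuclideanSpace ℝ (Fin d) →ₗ[ℝ] EuclideanSpace ℝ (Fin d))| *
            volume (closedBall (0 : EuclideanSpace ℝ (Fin d)) 1) := h4
      rw [h5, ENNReal.toReal_mul, ENNReal.toReal_ofReal (abs_nonneg _)]
    rw [h3]
    field_simp
  · intro i
    refine ⟨b i, ?_, rfl⟩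
    rw [mem_closedBall_zero_iff, b.norm_eq_one]
  · rw [hdt0]
    exact hδpos
  · rw [hdt0]
    intro v hv
    choose w hw hwv using hv
    have h6 : v = fun i => A (w i) := by
      funext i
      exact (hwv i).symm
    rw [h6, dt_image hd A w]
    have h7 := db_ball d w hw
    calc δ * dt w ≤ δ * 1 := mul_le_mul_of_nonneg_left h7 hδpos.le
      _ = δ := mul_one _

/-- the largest Gromov mass of an origin-symmetric convex body of dimension `d` is the volume
`π ^ (d / 2) / Γ (d / 2 + 1)` of the Euclidean unit ball, and it is attained exactly by the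
ellipsoids -/
theorem result (d : ℕ) (hd : 0 < d) :
    IsGreatest {m : ℝ | ∃ M : Set (EuclideanSpace ℝ (Fin d)), IsSymmetricBody M ∧
      m = gromovMass M} (Real.sqrt Real.pi ^ d / Real.Gamma ((d : ℝ) / 2 + 1)) ∧
    ∀ M : Set (EuclideanSpace ℝ (Fin d)), IsSymmetricBody M →
      (gromovMass M = Real.sqrt Real.pi ^ d / Real.Gamma ((d : ℝ) / 2 + 1) ↔
        ∃ A : EuclideanSpace ℝ (Fin d) ≃ₗ[ℝ] EuclideanSpace ℝ (Fin d),
          M = A '' Metric.closedBall (0 : EuclideanSpace ℝ (Fin d)) 1) := by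
  have hball : volume.real (closedBall (0 : EuclideanSpace ℝ (Fin d)) 1) =
      Real.sqrt Real.pi ^ d / Real.Gamma ((d : ℝ) / 2 + 1) := by
    have : Nonempty (Fin d) := ⟨⟨0, hd⟩⟩
    unfold Measure.real
    rw [EuclideanSpace.volume_closedBall, Fintype.card_fin, ENNReal.ofReal_one, one_pow, one_mul,
      ENNReal.toReal_ofReal]
    have h1 : 0 < Real.Gamma ((d : ℝ) / 2 + 1) := Real.Gamma_pos_of_pos (by positivity)
    positivity
  rw [← hball]
  have hle : ∀ M : Set (EuclideanSpace ℝ (Fin d)), IsSymmetricBody M →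
      gromovMass M ≤ volume.real (closedBall (0 : EuclideanSpace ℝ (Fin d)) 1) ∧
      (gromovMass M = volume.real (closedBall (0 : EuclideanSpace ℝ (Fin d)) 1) →
        ∃ A : EuclideanSpace ℝ (Fin d) ≃ₗ[ℝ] EuclideanSpace ℝ (Fin d),
          M = A '' Metric.closedBall (0 : EuclideanSpace ℝ (Fin d)) 1) := by
    intro M hM
    have hB := body_of M hM
    obtain ⟨v₀, h1, h2, h3⟩ := exists_max M hB
    rw [mass_eq hd M v₀ h1 h2 h3]
    have h4 := t_ineq d M (dt v₀) hd h2.le hB.compact h3
    have hkt : kap d ≠ ⊤ := kap_ne_top d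
    have hvt : volume M ≠ ⊤ := hB.compact.measure_lt_top.ne
    constructor
    · rw [div_le_iff₀ h2, mul_comm]
      have h5 := ENNReal.toReal_mono (ENNReal.mul_ne_top ENNReal.ofReal_ne_top hkt) h4
      rw [ENNReal.toReal_mul, ENNReal.toReal_ofReal h2.le] at h5
      exact h5
    · intro h5
      rw [div_eq_iff h2.ne'] at h5
      apply t_eq d M (dt v₀) hd hB
      refine ⟨hB.compact, h2, h3, ?_⟩
      rw [← ENNReal.toReal_eq_toReal_iff' hvt (ENNReal.mul_ne_top ENNReal.ofReal_ne_top hkt),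
        ENNReal.toReal_mul, ENNReal.toReal_ofReal h2.le, mul_comm]
      exact h5
  refine ⟨⟨⟨closedBall 0 1, ⟨isCompact_closedBall 0 1, convex_closedBall 0 1, ?_, ?_⟩, ?_⟩, ?_⟩, ?_⟩
  · exact ⟨0, ball_subset_interior_closedBall (mem_ball_self one_pos)⟩
  · intro x hx
    rw [mem_closedBall_zero_iff] at hx ⊢
    rwa [norm_neg]
  · have h1 := mass_ellipsoid hd (LinearEquiv.refl ℝ (EuclideanSpace ℝ (Fin d)))
    have h2 : (LinearEquiv.refl ℝ (EuclideanSpace ℝ (Fin d))) ''
        closedBall (0 : EuclideanSpace ℝ (Fin d)) 1 = closedBall 0 1 := Set.image_id _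
    rw [h2] at h1
    exact h1.symm
  · rintro _ ⟨M, hM, rfl⟩
    exact (hle M hM).1
  · intro M hM
    refine ⟨(hle M hM).2, ?_⟩
    rintro ⟨A, rfl⟩
    exact mass_ellipsoid hd A

end Pool.Agent.Results.MP_77d991_gt.LargestMass
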